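import Pool.Agent.Lib.P78373f.Upper

/-!
# Lattice and general simultaneous packing and covering constants differ

There is a norm on a five-dimensional real vector space for which the simultaneous packing and
covering constant `γ` is strictly smaller than the lattice simultaneous packing and covering
constant `γ*`.

Let `N x` be the sum of the two largest `|x i|` (the norm on `ℝ⁴` whose unit ball is a 24-cell;
it tiles `ℝ⁴` by translations in `D₄`). On `ℝ⁴ × ℝ` take the norm
`max (N x, |z|, (N x + 2 ε |z|) / (1 + ε))`: its unit ball is a prism over the 24-cell, with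
some edges cut off.

*General sets.* The adjacency graph of the tiling of `ℝ⁴` by 24-cells has a proper colouring with
four colours; shift the column over a cell by `0`, `1 / 2`, `1` or `3 / 2` according to its colour.
This set is `2`-separated and `(1 + ε / 2)`-dense.

*Subgroups.* If for arbitrarily small `ε` there are `2`-separated subgroups which are `r`-dense
for some `r < 1 + (11 / 20) ε`, then a limit along an ultrafilter is a lattice tiling of `ℝ⁴ × ℝ`
by the prism. Every such tiling has a vector `(x, z)` with `N x = 2`, `|z| ≤ 2 / 5`, for which just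
one pair of opposite facets of the 24-cell is touched by `x / 2`
(`Tile.exists_good`; for column tilings, the heights of the columns form a homomorphism from
`D₄` to `ℝ / 2 ℤ`, and one of the three roots of a hexagonal sublattice has a height of absolute
value at most `1 / 3`). Near the middle of that vector there is a point which is not covered.
-/

namespace Pool.Agent.Results.MP_78373f_an.LatticeGap

open Filter Topology

/-- The set `P` is `r`-separated: distinct points of `P` have distance at least `r`. -/
def IsSep {X : Type*} [NormedAddCommGroup X] (r : ℝ) (P : Set X) : Prop :=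
  ∀ x ∈ P, ∀ y ∈ P, x ≠ y → r ≤ ‖x - y‖

/-- The set `P` is `r`-dense: every point of the space has distance at most `r` from some point
of `P`. -/
def IsDense {X : Type*} [NormedAddCommGroup X] (r : ℝ) (P : Set X) : Prop :=
  ∀ x : X, ∃ p ∈ P, ‖x - p‖ ≤ r

/-- The simultaneous packing and covering constant `γ(X)`: the infimum of all `r > 0` such that
some subset of `X` is `r`-dense and `2`-separated. -/
noncomputable def gam (X : Type*) [NormedAddCommGroup X] : ℝ :=
  sInf {r : ℝ | 0 < r ∧ ∃ P : Set X, IsDense r P ∧ IsSep 2 P}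

/-- The lattice simultaneous packing and covering constant `γ*(X)`: the infimum of all `r > 0` such
that some additive subgroup of `X` is `r`-dense and `2`-separated. (If there were no such `r`, this
infimum would be `0` in Lean, and `gam X < gamStar X` would be false.) -/
noncomputable def gamStar (X : Type*) [NormedAddCommGroup X] : ℝ :=
  sInf {r : ℝ | 0 < r ∧ ∃ P : AddSubgroup X, IsDense r (P : Set X) ∧ IsSep 2 (P : Set X)}

open Pool.Agent.Lib.P78373f in
theorem gam_le (n : ℕ) : gam (Sp n) ≤ 1 + eps n / 2 := by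
  have he := eps_pos n
  refine csInf_le ⟨0, fun r hr => hr.1.le⟩ ⟨by linarith, arr, ?_, ?_⟩
  · intro a
    obtain ⟨p, hp, h⟩ := arr_dense he a
    exact ⟨p, hp, Sp.no_le_iff.2 h⟩
  · intro v hv w hw hvw
    exact arr_sep hv hw hvw (Sp.bLe_no (n := n) _)

open Pool.Agent.Lib.P78373f in
theorem gamStar_nonempty (n : ℕ) : {r : ℝ | 0 < r ∧ ∃ P : AddSubgroup (Sp n),
    IsDense r (P : Set (Sp n)) ∧ IsSep 2 (P : Set (Sp n))}.Nonempty := by
  refine ⟨2, by norm_num, dlat, ?_, ?_⟩
  · intro a
    obtain ⟨p, hp, h⟩ := dlat_dense (eps_pos n) a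
    exact ⟨p, hp, Sp.no_le_iff.2 h⟩
  · intro v hv w hw hvw
    exact dlat_sep hv hw hvw (Sp.bLe_no (n := n) _)

open Pool.Agent.Lib.P78373f in
theorem two_le {n : ℕ} {P : AddSubgroup (Sp n)} (h2 : IsSep 2 (P : Set (Sp n))) {v : Sp n}
    (hv : v ∈ P) (hne : v ≠ 0) : 2 ≤ Sp.no n v := by
  have h3 := h2 v hv 0 P.zero_mem hne
  rwa [sub_zero] at h3

open Pool.Agent.Lib.P78373f in
theorem lat_of {n : ℕ} {r : ℝ} {P : AddSubgroup (Sp n)} (h1 : IsDense r (P : Set (Sp n)))
    (h2 : IsSep 2 (P : Set (Sp n))) : Lat (eps n) r P where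
  sep v hv h := by
    by_contra hne
    have h3 := two_le h2 hv hne
    have h4 := Sp.no_lt_of h
    linarith
  cov a := by
    obtain ⟨p, hp, h⟩ := h1 a
    exact ⟨p, hp, Sp.no_le_iff.1 h⟩

open Pool.Agent.Lib.P78373f in
theorem tendsto_eps : Tendsto eps ((hyperfilter ℕ : Ultrafilter ℕ) : Filter ℕ) (𝓝 0) :=
  (tendsto_one_div_add_atTop_nhds_zero_nat (𝕜 := ℝ)).mono_left Nat.hyperfilter_le_atTop

open Pool.Agent.Lib.P78373f in
theorem finrank_sp (n : ℕ) : Module.finrank ℝ (Sp n) = 5 := by
  have : Module.finrank ℝ ((Fin 4 → ℝ) × ℝ) = 5 := by simp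
  exact this

open Pool.Agent.Lib.P78373f in
theorem exists_gap : ∃ n : ℕ, gam (Sp n) < gamStar (Sp n) := by
  by_contra hcon
  push Not at hcon
  have h : ∀ n, ∃ (r : ℝ) (P : AddSubgroup (Sp n)), r < 1 + 11 / 20 * eps n ∧
      IsDense r (P : Set (Sp n)) ∧ IsSep 2 (P : Set (Sp n)) := by
    intro n
    have he := eps_pos n
    have h1 : gamStar (Sp n) < 1 + 11 / 20 * eps n := by
      have := hcon n
      have := gam_le n
      linarith
    obtain ⟨r, ⟨-, P, h2, h3⟩, h4⟩ := exists_lt_of_csInf_lt (gamStar_nonempty n) h1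
    exact ⟨r, P, h4, h2, h3⟩
  choose r P hr h1 h2 using h
  exact no_lattices (hyperfilter ℕ) P tendsto_eps (fun n => lat_of (h1 n) (h2 n)) eps_pos hr

/-- There is a five-dimensional real normed space `X` with `γ(X) < γ*(X)`. -/
theorem result : ∃ (X : Type) (_ : NormedAddCommGroup X) (_ : NormedSpace ℝ X),
    Module.finrank ℝ X = 5 ∧ gam X < gamStar X := by
  obtain ⟨n, hn⟩ := exists_gap
  exact ⟨Pool.Agent.Lib.P78373f.Sp n, inferInstance, inferInstance, finrank_sp n, hn⟩

end Pool.Agent.Results.MP_78373f_an.LatticeGap
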